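import Pool.Agent.TH275.QM.Disc

/-! # Quadratic systems: on average at most one closed orbit around a focus

Up to a linear change of the coordinates and of the time every quadratic system with a focus or a
centre at the origin is `z' = (μ + i) z + A z² + B z z̄ + C z̄²`. We count the closed orbits around
the origin on average over the parameter `μ` (the trace of the linear part is `2 μ`). -/

open Set MeasureTheory
open scoped ENNReal

namespace Pool.Agent.Results.MP_f4c00e_an.MeanAtMostOne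

/-- The quadratic vector field `z ↦ (μ + i) z + A z² + B z z̄ + C z̄²` on `ℂ = ℝ²`. -/
noncomputable def X (A B C : ℂ) (μ : ℝ) (z : ℂ) : ℂ :=
  ((μ : ℂ) + Complex.I) * z + A * z ^ 2 + B * (z * (starRingEnd ℂ) z) + C * (starRingEnd ℂ) z ^ 2

/-- The closed orbits of `z' = V z` (images of periodic solutions) which surround the origin (it is
not on the orbit and its connected component in the complement of the orbit is bounded) and are
contained in `D`. -/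
def closedOrbits (V : ℂ → ℂ) (D : Set ℂ) : Set (Set ℂ) :=
  {Γ | ((∃ γ : ℝ → ℂ, ∃ T : ℝ, 0 < T ∧ (∀ t, HasDerivAt γ (V (γ t)) t) ∧
      (∀ t, γ (t + T) = γ t) ∧ Γ = Set.range γ) ∧
    (0:ℂ) ∉ Γ ∧ Bornology.IsBounded (connectedComponentIn Γᶜ 0)) ∧ Γ ⊆ D}

/-- `N μ` has at most `g μ` elements, where `g ≥ 0` is measurable with integral at most `K`. -/
def IntegralLE (N : ℝ → Set (Set ℂ)) (K : ℝ) : Prop :=
  ∃ g : ℝ → ℝ≥0∞, Measurable g ∧ (∀ μ, ((N μ).encard : ℝ≥0∞) ≤ g μ) ∧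
    ∫⁻ μ, g μ ≤ ENNReal.ofReal K

/-- `c(θ) = 2 Re (A e^{iθ} - C e^{-3iθ})` -/
noncomputable def c (A C : ℂ) (θ : ℝ) : ℝ :=
  2 * (A * Complex.exp (θ * Complex.I) - C * Complex.exp (-(3 * θ) * Complex.I)).re

/-- `(1 / 2π) ∫ (c⁻ ρ₀ - c⁺ ρ₁)` -/
noncomputable def lo (A C : ℂ) (ρ0 ρ1 : ℝ → ℝ) : ℝ :=
  (∫ θ in (0:ℝ)..(2 * Real.pi), (max (-c A C θ) 0 * ρ0 θ - max (c A C θ) 0 * ρ1 θ)) /
    (2 * Real.pi)

/-- `(1 / 2π) ∫ (c⁻ ρ₁ - c⁺ ρ₀)` -/
noncomputable def hi (A C : ℂ) (ρ0 ρ1 : ℝ → ℝ) : ℝ :=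
  (∫ θ in (0:ℝ)..(2 * Real.pi), (max (-c A C θ) 0 * ρ1 θ - max (c A C θ) 0 * ρ0 θ)) /
    (2 * Real.pi)

lemma markov {N : ℝ → Set (Set ℂ)} {K : ℝ} (h : IntegralLE N K) (k : ℕ) :
    (k : ℝ≥0∞) * volume {μ | (k : ℕ∞) ≤ (N μ).encard} ≤ ENNReal.ofReal K := by
  obtain ⟨g, hg, hN, hi⟩ := h
  refine le_trans ?_ hi
  refine le_trans ?_ (mul_meas_ge_le_lintegral hg (k : ℝ≥0∞))
  gcongr
  intro hμ
  refine le_trans ?_ (hN _)
  have h2 := ENat.toENNReal_le.2 hμ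
  simpa using h2

/-- **Quadratic systems on average.** Let `X μ z = (μ + i) z + A z² + B z z̄ + C z̄²`.

(i) Let `D` be a set in the region `ρ₀ ≤ r ≤ ρ₁` of the polar coordinates, `ρ₀, ρ₁` continuous. Then
`X μ` has no closed orbit around the origin in `D` unless `lo ≤ μ ≤ hi`, and the integral over all
`μ` of their number is at most `hi - lo = (1/2π) ∫ |c| (ρ₁ - ρ₀)`: on average over `lo ≤ μ ≤ hi`
there is at most one. So the set of the `μ` with at least `k` of them has (outer) measure at most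
`(hi - lo) / k`.

(ii) In the disc of radius `R` there is a closed orbit around the origin only if
`|μ| ≤ M = (2/π) (|A| + |C|) R`, their number has integral at most `2 M` and the set of the `μ` with
at least `k` of them has measure at most `2 M / k`. -/
theorem result (A B C : ℂ) :
    (∀ (D : Set ℂ) (ρ0 ρ1 : ℝ → ℝ), Continuous ρ0 → Continuous ρ1 →
      (∀ r θ : ℝ, 0 < r → (r:ℂ) * Complex.exp (θ * Complex.I) ∈ D → ρ0 θ ≤ r ∧ r ≤ ρ1 θ) →
      (∀ μ, (closedOrbits (X A B C μ) D).Nonempty → μ ∈ Icc (lo A C ρ0 ρ1) (hi A C ρ0 ρ1)) ∧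
      hi A C ρ0 ρ1 - lo A C ρ0 ρ1 =
        (1 / (2 * Real.pi)) * ∫ θ in (0:ℝ)..(2 * Real.pi), |c A C θ| * (ρ1 θ - ρ0 θ) ∧
      IntegralLE (fun μ => closedOrbits (X A B C μ) D) (hi A C ρ0 ρ1 - lo A C ρ0 ρ1) ∧
      ∀ k : ℕ, (k : ℝ≥0∞) * volume {μ | (k : ℕ∞) ≤ (closedOrbits (X A B C μ) D).encard} ≤
        ENNReal.ofReal (hi A C ρ0 ρ1 - lo A C ρ0 ρ1)) ∧
    ∀ R : ℝ, 0 < R →
      (∀ μ, (closedOrbits (X A B C μ) (Metric.closedBall 0 R)).Nonempty →
        |μ| ≤ 2 / Real.pi * (‖A‖ + ‖C‖) * R) ∧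
      IntegralLE (fun μ => closedOrbits (X A B C μ) (Metric.closedBall 0 R))
        (2 * (2 / Real.pi * (‖A‖ + ‖C‖) * R)) ∧
      ∀ k : ℕ, (k : ℝ≥0∞) *
        volume {μ | (k : ℕ∞) ≤ (closedOrbits (X A B C μ) (Metric.closedBall 0 R)).encard} ≤
          ENNReal.ofReal (2 * (2 / Real.pi * (‖A‖ + ‖C‖) * R)) := by
  refine ⟨fun D ρ0 ρ1 hρ0 hρ1 hD => ?_, fun R hR => ?_⟩
  · have h := TH275.QM.region A B C hρ0 hρ1 hD
    have h1 : IntegralLE (fun μ => closedOrbits (X A B C μ) D) (hi A C ρ0 ρ1 - lo A C ρ0 ρ1) := h.2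
    exact ⟨h.1, TH275.QM.hi_sub_lo A C hρ0 hρ1, h1, markov h1⟩
  · have h := TH275.QM.disc A B C hR
    have h1 : IntegralLE (fun μ => closedOrbits (X A B C μ) (Metric.closedBall 0 R))
        (2 * (2 / Real.pi * (‖A‖ + ‖C‖) * R)) := h.2
    exact ⟨h.1, h1, markov h1⟩

end Pool.Agent.Results.MP_f4c00e_an.MeanAtMostOne
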