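import Pool.Agent.TH275.QM.Orb

/-! # Quadratic systems: on average at most half an attracting limit cycle around a focus

Up to a linear change of the coordinates and of the time every quadratic system with a focus or a
centre at the origin is `z' = (μ + i) z + A z² + B z z̄ + C z̄²`. We count the hyperbolic attracting
and the hyperbolic repelling limit cycles around the origin separately, on average over `μ`. -/

open Set MeasureTheory
open scoped ENNReal

namespace Pool.Agent.Results.MP_f4c00e_an.MeanHalfAttracting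

/-- The quadratic vector field `z ↦ (μ + i) z + A z² + B z z̄ + C z̄²` on `ℂ = ℝ²`. -/
noncomputable def X (A B C : ℂ) (μ : ℝ) (z : ℂ) : ℂ :=
  ((μ : ℂ) + Complex.I) * z + A * z ^ 2 + B * (z * (starRingEnd ℂ) z) + C * (starRingEnd ℂ) z ^ 2

/-- The characteristic exponent of a closed orbit: the integral over the period of the divergence.
Its exponential is the derivative of the return map. -/
noncomputable def exponent (V : ℂ → ℂ) (γ : ℝ → ℂ) (T : ℝ) : ℝ :=
  ∫ t in (0:ℝ)..T, ((fderiv ℝ V (γ t) 1).re + (fderiv ℝ V (γ t) Complex.I).im)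

/-- The closed orbits (with least period `T`) around the origin, contained in `D`, which are
hyperbolic and attracting (`σ = 1`: negative exponent) or repelling (`σ = -1`: positive exponent). -/
def hyperbolicOrbits (σ : ℝ) (V : ℂ → ℂ) (D : Set ℂ) : Set (Set ℂ) :=
  {Γ | ∃ (γ : ℝ → ℂ) (T : ℝ), 0 < T ∧ (∀ t, HasDerivAt γ (V (γ t)) t) ∧
    (∀ t, γ (t + T) = γ t) ∧ (∀ s ∈ Ioo 0 T, γ s ≠ γ 0) ∧ Γ = Set.range γ ∧
    (0:ℂ) ∉ Γ ∧ Bornology.IsBounded (connectedComponentIn Γᶜ 0) ∧ Γ ⊆ D ∧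
    σ * exponent V γ T < 0}

/-- `N μ` has at most `g μ` elements, where `g ≥ 0` is measurable with integral at most `K`. -/
def IntegralLE (N : ℝ → Set (Set ℂ)) (K : ℝ) : Prop :=
  ∃ g : ℝ → ℝ≥0∞, Measurable g ∧ (∀ μ, ((N μ).encard : ℝ≥0∞) ≤ g μ) ∧
    ∫⁻ μ, g μ ≤ ENNReal.ofReal K

/-- `c(θ) = 2 Re (A e^{iθ} - C e^{-3iθ})` -/
noncomputable def c (A C : ℂ) (θ : ℝ) : ℝ :=
  2 * (A * Complex.exp (θ * Complex.I) - C * Complex.exp (-(3 * θ) * Complex.I)).re

lemma hyp_eq (σ : ℝ) (A B C : ℂ) (μ : ℝ) (D : Set ℂ) :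
    hyperbolicOrbits σ (X A B C μ) D ⊆ TH275.QM.sorbs σ (TH234.QH.field μ A B C) D := by
  rintro Γ ⟨γ, T, h1, h2, h3, h4, rfl, h5, h6, h7, h8⟩
  exact ⟨γ, T, ⟨h1, h2, h3, h4, h5, h6⟩, rfl, h7, h8⟩

/-- **Attracting and repelling limit cycles of quadratic systems on average.**
Let `X μ z = (μ + i) z + A z² + B z z̄ + C z̄²`, `σ = 1` (attracting) or `σ = -1` (repelling).

(i) In a set `D` in the region `ρ₀ ≤ r ≤ ρ₁`, `ρ₀, ρ₁` continuous, the number of the hyperbolic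
closed orbits around the origin with this stability has integral over all `μ` at most
`(1/2π) ∫ max (-σ c) 0 (ρ₁ - ρ₀)`.

(ii) In the disc of radius `R` this integral is at most `M = (2/π) (|A| + |C|) R`, for each of the
two stabilities. -/
theorem result (A B C : ℂ) (σ : ℝ) (hσ : σ = 1 ∨ σ = -1) :
    (∀ (D : Set ℂ) (ρ0 ρ1 : ℝ → ℝ), Continuous ρ0 → Continuous ρ1 →
      (∀ r θ : ℝ, 0 < r → (r:ℂ) * Complex.exp (θ * Complex.I) ∈ D → ρ0 θ ≤ r ∧ r ≤ ρ1 θ) →
      IntegralLE (fun μ => hyperbolicOrbits σ (X A B C μ) D)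
        ((1 / (2 * Real.pi)) *
          ∫ θ in (0:ℝ)..(2 * Real.pi), max (-(σ * c A C θ)) 0 * (ρ1 θ - ρ0 θ))) ∧
    ∀ R : ℝ, 0 < R →
      IntegralLE (fun μ => hyperbolicOrbits σ (X A B C μ) (Metric.closedBall 0 R))
        (2 / Real.pi * (‖A‖ + ‖C‖) * R) := by
  refine ⟨fun D ρ0 ρ1 hρ0 hρ1 hD => ?_, fun R hR => ?_⟩
  · obtain ⟨g, hg, hN, hi⟩ := TH275.QM.sregion A B C hρ0 hρ1 hD hσ
    refine ⟨g, hg, fun μ => le_trans ?_ (hN μ), hi⟩
    exact ENat.toENNReal_le.2 (Set.encard_le_encard (hyp_eq σ A B C μ D))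
  · obtain ⟨g, hg, hN, hi⟩ := TH275.QM.sdisc A B C hR hσ
    refine ⟨g, hg, fun μ => le_trans ?_ (hN μ), hi⟩
    exact ENat.toENNReal_le.2 (Set.encard_le_encard (hyp_eq σ A B C μ _))

end Pool.Agent.Results.MP_f4c00e_an.MeanHalfAttracting
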