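import Pool.Agent.TH234.QH.Main

/-! # Quadratic systems: the total hyperbolicity of the limit cycles around a focus

Up to a linear change of the coordinates and of the time every quadratic system with a focus or a
centre at the origin is `z' = (μ + i) z + A z² + B z z̄ + C z̄²`. For every such system the sum of the
absolute values of the characteristic exponents of all closed orbits around the origin is bounded by
data of one of them, and so is the number of the closed orbits which are not too weakly hyperbolic. -/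

open Set MeasureTheory

namespace Pool.Agent.Results.MP_f4c00e_an.TotalHyperbolicity

/-- The quadratic vector field `z ↦ (μ + i) z + A z² + B z z̄ + C z̄²` on `ℂ = ℝ²`. -/
noncomputable def X (μ : ℝ) (A B C z : ℂ) : ℂ :=
  ((μ : ℂ) + Complex.I) * z + A * z ^ 2 + B * (z * (starRingEnd ℂ) z) + C * (starRingEnd ℂ) z ^ 2

/-- The divergence of a vector field on `ℂ = ℝ²`. -/
noncomputable def divergence (V : ℂ → ℂ) (z : ℂ) : ℝ :=
  (fderiv ℝ V z 1).re + (fderiv ℝ V z Complex.I).im

/-- `γ` is a closed orbit of `z' = V z` with minimal period `T` which surrounds the origin. -/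
def ClosedOrbit (V : ℂ → ℂ) (γ : ℝ → ℂ) (T : ℝ) : Prop :=
  0 < T ∧ (∀ t, HasDerivAt γ (V (γ t)) t) ∧ (∀ t, γ (t + T) = γ t) ∧
    (∀ s ∈ Ioo 0 T, γ s ≠ γ 0) ∧ (0 : ℂ) ∉ Set.range γ ∧
    Bornology.IsBounded (connectedComponentIn (Set.range γ)ᶜ 0)

/-- The characteristic exponent of a closed orbit: the integral of the divergence over one period.
Its exponential is the derivative of the return map. -/
noncomputable def exponent (V : ℂ → ℂ) (γ : ℝ → ℂ) (T : ℝ) : ℝ :=
  ∫ t in (0:ℝ)..T, divergence V (γ t)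

/-- The function `b(z) = div V - 4 r'/r + 2 μ θ'` (polar coordinates `z = r exp(iθ)`,
`V z / z = r'/r + i θ'`). -/
noncomputable def b (μ : ℝ) (V : ℂ → ℂ) (z : ℂ) : ℝ :=
  divergence V z - 4 * (V z / z).re + 2 * μ * (V z / z).im

/-- **Total hyperbolicity.** Let `γ i`, `i ∈ ι`, be finitely many different closed orbits around the
origin of one quadratic system `z' = (μ + i) z + A z² + B z z̄ + C z̄²`, with minimal periods `T i`.
For two of them, `γ i₀` and `γ i₁`, the sum of the absolute values of the exponents of all others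
is at most the smaller one of the integrals of `b⁺` and of `b⁻` along `γ i₁`; moreover the sum over
all except `γ i₀` of `|exponent| / (1 + ∫ |b|)²` is at most `1` and the sum of the absolute values of
all exponents is at most `4 π |μ| + ∫ |b|` along `γ i₁`. In particular, if all exponents are at
least `ε` in absolute value, all orbits lie in the disc of radius `R` and all periods are at most
`P`, then their number is at most
`2 + (2 |B| + 4 |C| + 2 |μ| (|A| + |B| + |C|)) R P / (2 ε)`. -/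
theorem result (μ : ℝ) (A B C : ℂ) {ι : Type} [Fintype ι] [Nonempty ι] (γ : ι → ℝ → ℂ)
    (T : ι → ℝ) (hγ : ∀ i, ClosedOrbit (X μ A B C) (γ i) (T i))
    (hne : ∀ i j, i ≠ j → Set.range (γ i) ≠ Set.range (γ j)) :
    (∃ i₀ i₁ : ι,
      (∀ S : Finset ι, i₀ ∉ S → i₁ ∉ S →
        ∑ i ∈ S, |exponent (X μ A B C) (γ i) (T i)| ≤
          min (∫ t in (0:ℝ)..T i₁, max (b μ (X μ A B C) (γ i₁ t)) 0)
            (∫ t in (0:ℝ)..T i₁, max (-b μ (X μ A B C) (γ i₁ t)) 0)) ∧
      (∀ S : Finset ι, i₀ ∉ S →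
        ∑ i ∈ S, |exponent (X μ A B C) (γ i) (T i)| /
          (1 + ∫ t in (0:ℝ)..T i, |b μ (X μ A B C) (γ i t)|) ^ 2 ≤ 1) ∧
      ∑ i, |exponent (X μ A B C) (γ i) (T i)| ≤
        4 * Real.pi * |μ| + ∫ t in (0:ℝ)..T i₁, |b μ (X μ A B C) (γ i₁ t)|) ∧
    ∀ ε R P : ℝ, 0 < ε → (∀ i, ε ≤ |exponent (X μ A B C) (γ i) (T i)|) →
      (∀ i t, ‖γ i t‖ ≤ R) → (∀ i, T i ≤ P) →
      (Fintype.card ι : ℝ) ≤
        2 + (2 * ‖B‖ + 4 * ‖C‖ + 2 * |μ| * (‖A‖ + ‖B‖ + ‖C‖)) * R * P / (2 * ε) := by
  have hγ' : ∀ i, TH234.QH.ClosedOrbit (TH234.QH.field μ A B C) (γ i) (T i) := fun i =>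
    ⟨(hγ i).1, (hγ i).2.1, (hγ i).2.2.1, (hγ i).2.2.2.1, (hγ i).2.2.2.2.1, (hγ i).2.2.2.2.2⟩
  exact TH234.QH.main μ A B C γ T hγ' hne

end Pool.Agent.Results.MP_f4c00e_an.TotalHyperbolicity
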